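import Pool.Agent.Y872.L.Defs

/-!
Project LT (helper872), part PRET: the pretentious case. A product of local characters which agrees with `f` away from
the primes `p > y` with `f p ≠ χ p`, local choices by `S_LOC`, the Chinese remainder theorem and a sieve.
-/

set_option autoImplicit false

namespace Pool.Agent.Y917.LT
open Finset Filter
open Pool.Agent.Y872.L


/-- the number of `k < N` with `p ∣ s + M k` is at most `N / p + 1` -/
theorem card_class (p M s N : ℕ) (hc : Nat.Coprime p M) :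
    ((range N).filter fun k => p ∣ s + M * k).card ≤ N / p + 1 := by
  classical
  rw [← card_range (N / p + 1)]
  apply card_le_card_of_injOn (fun k => k / p)
  · intro k hk
    simp only [coe_filter, mem_range, Set.mem_ofPred_eq] at hk
    simp only [coe_range, Set.mem_Iio]
    exact Nat.lt_succ_of_le (Nat.div_le_div_right hk.1.le)
  · intro k hk l hl hkl
    simp only [coe_filter, mem_range, Set.mem_ofPred_eq] at hk hl
    have hkl' : k / p = l / p := hkl
    have h1 : s + M * k ≡ s + M * l [MOD p] :=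
      ((Nat.modEq_zero_iff_dvd.2 hk.2).trans (Nat.modEq_zero_iff_dvd.2 hl.2).symm)
    have h2 : M * k ≡ M * l [MOD p] := Nat.ModEq.add_left_cancel' s h1
    have h3 : k ≡ l [MOD p] := Nat.ModEq.cancel_left_of_coprime (by simpa using hc) h2
    have h4 : k % p = l % p := h3
    rw [← Nat.div_add_mod k p, ← Nat.div_add_mod l p, hkl', h4]

open scoped Classical in
theorem sieve (B : Set ℕ) (hBp : ∀ p ∈ B, p.Prime)
    (hs : Summable (fun p : ℕ => if p ∈ B then 1 / (p : ℝ) else 0))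
    (hsm : ∑' p : ℕ, (if p ∈ B then 1 / (p : ℝ) else 0) < 1 / 100)
    (M r a b : ℕ) (hM : 0 < M) (hcop : ∀ p ∈ B, Nat.Coprime p M) :
    ∃ n : ℕ, 0 < n ∧ n ≡ r [MOD M] ∧ ∀ p ∈ B, ¬ p ∣ n ∧ ¬ p ∣ n + a ∧ ¬ p ∣ n + b := by
  set w : ℕ → ℝ := fun p => if p ∈ B then 1 / (p : ℝ) else 0 with hw
  have hw0 : ∀ p, 0 ≤ w p := fun p => by
    simp only [hw]; split_ifs <;> positivity
  have hMr : (0 : ℝ) < M := by exact_mod_cast hM
  -- the tail
  obtain ⟨T, hT⟩ : ∃ T : ℕ, ∀ Z : ℕ, ∑ p ∈ Ico T Z, w p ≤ 1 / (10 * M) := by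
    have h1 := hs.tendsto_sum_tsum_nat
    have h2 : CauchySeq (fun n => ∑ p ∈ range n, w p) := h1.cauchySeq
    rw [Metric.cauchySeq_iff'] at h2
    obtain ⟨T, hT⟩ := h2 (1 / (10 * M)) (by positivity)
    refine ⟨T, fun Z => ?_⟩
    rcases le_or_gt T Z with h | h
    · have h3 := hT Z h
      rw [Real.dist_eq, ← Finset.sum_Ico_eq_sub _ h] at h3
      exact (le_abs_self _).trans h3.le
    · rw [Ico_eq_empty_of_le h.le, sum_empty]
      positivity
  have hpart : ∀ Z : ℕ, ∑ p ∈ range Z, w p ≤ 1 / 100 := fun Z =>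
    (hs.sum_le_tsum _ (fun p _ => hw0 p)).trans hsm.le
  -- the number of elements of B below Z
  have hcard : ∀ Z : ℕ, (((range Z).filter fun p => p ∈ B).card : ℝ) ≤ T + Z * (1 / (10 * M)) := by
    intro Z
    have h1 : ((range Z).filter fun p => p ∈ B) ⊆ range T ∪ (Ico T Z).filter fun p => p ∈ B := by
      intro p hp
      simp only [mem_filter, mem_range] at hp
      simp only [mem_union, mem_filter, mem_range, mem_Ico]
      by_cases h : p < T
      · exact Or.inl h
      · exact Or.inr ⟨⟨not_lt.1 h, hp.1⟩, hp.2⟩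
    have h2 : (((Ico T Z).filter fun p => p ∈ B).card : ℝ) ≤ Z * ∑ p ∈ Ico T Z, w p := by
      rw [mul_sum, card_eq_sum_ones, Nat.cast_sum, sum_filter]
      apply sum_le_sum
      intro p hp
      simp only [mem_Ico] at hp
      simp only [hw]
      split_ifs with h
      · have hp0 : 0 < p := (hBp p h).pos
        have : (p : ℝ) ≤ Z := by exact_mod_cast hp.2.le
        have hp0' : (0 : ℝ) < p := by exact_mod_cast hp0
        rw [Nat.cast_one, mul_one_div, le_div_iff₀ hp0']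
        linarith
      · simp
    calc (((range Z).filter fun p => p ∈ B).card : ℝ)
        ≤ ((range T ∪ (Ico T Z).filter fun p => p ∈ B).card : ℝ) := by
          exact_mod_cast card_le_card h1
      _ ≤ (T : ℝ) + ((Ico T Z).filter fun p => p ∈ B).card := by
          have := card_union_le (range T) ((Ico T Z).filter fun p => p ∈ B)
          rw [card_range] at this
          exact_mod_cast this
      _ ≤ _ := by
          have h3 := hT Z
          have h4 : (Z : ℝ) * ∑ p ∈ Ico T Z, w p ≤ Z * (1 / (10 * M)) :=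
            mul_le_mul_of_nonneg_left h3 (Nat.cast_nonneg Z)
          linarith
  -- counting
  by_contra hcon
  push Not at hcon
  -- every k gives some bad prime
  set nn : ℕ → ℕ := fun k => (r + M) + M * k with hnn
  have hk : ∀ N k : ℕ, k < N → ∃ p ∈ (range (r + M * (N + 1) + a + b + 1)).filter fun p => p ∈ B,
      p ∣ (r + M) + M * k ∨ p ∣ (r + M + a) + M * k ∨ p ∣ (r + M + b) + M * k := by
    intro N k hkN
    have h1 : 0 < (r + M) + M * k := by positivity
    have h2 : (r + M) + M * k ≡ r [MOD M] := by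
      have : (r + M) + M * k = r + M * (k + 1) := by ring
      rw [this]
      simp [Nat.ModEq]
    obtain ⟨p, hpB, hp⟩ := hcon _ h1 h2
    have h3 : p ∣ (r + M) + M * k ∨ p ∣ (r + M + a) + M * k ∨ p ∣ (r + M + b) + M * k := by
      by_contra h4
      push Not at h4
      obtain ⟨h5, h6, h7⟩ := h4
      have e1 : (r + M) + M * k + a = (r + M + a) + M * k := by ring
      have e2 : (r + M) + M * k + b = (r + M + b) + M * k := by ring
      have := hp h5
      rw [e1, e2] at this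
      exact h7 (this h6)
    have hMk : M * k ≤ M * N := Nat.mul_le_mul_left M hkN.le
    have hMN : M * (N + 1) = M * N + M := by ring
    refine ⟨p, ?_, h3⟩
    simp only [mem_filter, mem_range]
    refine ⟨?_, hpB⟩
    rcases h3 with h | h | h
    · have := Nat.le_of_dvd (by omega) h
      omega
    · have := Nat.le_of_dvd (by omega) h
      omega
    · have := Nat.le_of_dvd (by omega) h
      omega
  have hcount : ∀ N : ℕ, (N : ℝ) ≤ ∑ p ∈ (range (r + M * (N + 1) + a + b + 1)).filter (fun p => p ∈ B),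
      3 * ((N : ℝ) / p + 1) := by
    intro N
    set F := (range (r + M * (N + 1) + a + b + 1)).filter (fun p => p ∈ B) with hF
    have h1 : range N ⊆ F.biUnion fun p => ((range N).filter fun k => p ∣ (r + M) + M * k) ∪
        (((range N).filter fun k => p ∣ (r + M + a) + M * k) ∪
        ((range N).filter fun k => p ∣ (r + M + b) + M * k)) := by
      intro k hkN
      obtain ⟨p, hp, h⟩ := hk N k (mem_range.1 hkN)
      rw [mem_biUnion]
      refine ⟨p, hp, ?_⟩
      simp only [mem_union, mem_filter]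
      tauto
    have h2 := (card_le_card h1).trans card_biUnion_le
    rw [card_range] at h2
    have h3 : (N : ℝ) ≤ ((∑ p ∈ F, (((range N).filter fun k => p ∣ (r + M) + M * k) ∪
        (((range N).filter fun k => p ∣ (r + M + a) + M * k) ∪
        ((range N).filter fun k => p ∣ (r + M + b) + M * k))).card : ℕ) : ℝ) := by exact_mod_cast h2
    refine h3.trans ?_
    rw [Nat.cast_sum]
    apply sum_le_sum
    intro p hp
    simp only [hF, mem_filter, mem_range] at hp
    have hpp := (hBp p hp.2).pos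
    have hc := hcop p hp.2
    have c1 := card_class p M (r + M) N hc
    have c2 := card_class p M (r + M + a) N hc
    have c3 := card_class p M (r + M + b) N hc
    have u1 := card_union_le ((range N).filter fun k => p ∣ (r + M) + M * k)
      (((range N).filter fun k => p ∣ (r + M + a) + M * k) ∪
        ((range N).filter fun k => p ∣ (r + M + b) + M * k))
    have u2 := card_union_le ((range N).filter fun k => p ∣ (r + M + a) + M * k)
        ((range N).filter fun k => p ∣ (r + M + b) + M * k)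
    have h4 : (((range N).filter fun k => p ∣ (r + M) + M * k) ∪
        (((range N).filter fun k => p ∣ (r + M + a) + M * k) ∪
        ((range N).filter fun k => p ∣ (r + M + b) + M * k))).card ≤ 3 * (N / p + 1) := by omega
    have h5 : ((N / p : ℕ) : ℝ) ≤ (N : ℝ) / p := Nat.cast_div_le
    calc _ ≤ ((3 * (N / p + 1) : ℕ) : ℝ) := by exact_mod_cast h4
      _ = 3 * (((N / p : ℕ) : ℝ) + 1) := by push_cast; ring
      _ ≤ _ := by linarith
  have hbound : ∀ N : ℕ, (N : ℝ) ≤ 3 * (N * (1 / 100)) +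
      3 * (T + ((r + M * (N + 1) + a + b + 1 : ℕ) : ℝ) * (1 / (10 * M))) := by
    intro N
    refine (hcount N).trans ?_
    rw [← mul_sum, sum_add_distrib, mul_add]
    have h1 : ∑ p ∈ (range (r + M * (N + 1) + a + b + 1)).filter (fun p => p ∈ B), (N : ℝ) / p ≤
        N * (1 / 100) := by
      rw [sum_filter]
      have h2 : ∑ p ∈ range (r + M * (N + 1) + a + b + 1), (if p ∈ B then (N : ℝ) / p else 0) =
          N * ∑ p ∈ range (r + M * (N + 1) + a + b + 1), w p := by
        rw [mul_sum]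
        apply sum_congr rfl
        intro p _
        simp only [hw]
        split_ifs
        · ring
        · ring
      rw [h2]
      exact mul_le_mul_of_nonneg_left (hpart _) (Nat.cast_nonneg N)
    have h3 : ∑ p ∈ (range (r + M * (N + 1) + a + b + 1)).filter (fun p => p ∈ B), (1 : ℝ) ≤
        T + ((r + M * (N + 1) + a + b + 1 : ℕ) : ℝ) * (1 / (10 * M)) := by
      have := hcard (r + M * (N + 1) + a + b + 1)
      rw [sum_const, nsmul_eq_mul, mul_one]
      exact this
    linarith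
  -- a contradiction for large N
  set c : ℝ := 3 * (T + (r + M + a + b + 1) * (1 / (10 * M))) with hc
  obtain ⟨N, hN⟩ := exists_nat_gt (2 * c)
  have h1 := hbound N
  push_cast at h1
  have h2 : 3 * ((T : ℝ) + ((r : ℝ) + M * (N + 1) + a + b + 1) * (1 / (10 * M))) = c + 3 / 10 * N := by
    rw [hc]
    field_simp
    ring
  rw [h2] at h1
  have hc0 : 0 ≤ c := by positivity
  have hN0 : (0 : ℝ) ≤ N := Nat.cast_nonneg N
  nlinarith



/-- `c ≡ x` modulo `p ^ e` and `c ≡ 1` modulo the other prime powers -/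
theorem exists_cc (S : Finset ℕ) (hS : ∀ p ∈ S, p.Prime) (e p : ℕ) (hp : p ∈ S) (x : ℕ) :
    ∃ c : ℕ, c ≡ x [MOD p ^ e] ∧ c ≡ 1 [MOD ∏ q ∈ S.erase p, q ^ e] := by
  have hc : Nat.Coprime (p ^ e) (∏ q ∈ S.erase p, q ^ e) := by
    apply Nat.Coprime.prod_right
    intro q hq
    rw [mem_erase] at hq
    exact Nat.Coprime.pow e e ((Nat.coprime_primes (hS p hp) (hS q hq.2)).2 (Ne.symm hq.1))
  exact ⟨Nat.chineseRemainder hc x 1, (Nat.chineseRemainder hc x 1).2⟩

open scoped Classical in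
noncomputable def cc (S : Finset ℕ) (e p x : ℕ) : ℕ :=
  if h : ∃ c : ℕ, c ≡ x [MOD p ^ e] ∧ c ≡ 1 [MOD ∏ q ∈ S.erase p, q ^ e] then h.choose else 1

section
variable {S : Finset ℕ} (hS : ∀ p ∈ S, p.Prime) {e p : ℕ} (hp : p ∈ S)
include hS hp

theorem cc_spec (x : ℕ) : cc S e p x ≡ x [MOD p ^ e] ∧ cc S e p x ≡ 1 [MOD ∏ q ∈ S.erase p, q ^ e] := by
  have h := exists_cc S hS e p hp x
  unfold cc
  rw [dif_pos h]
  exact h.choose_spec

theorem modEq_of (c c' : ℕ) (h1 : c ≡ c' [MOD p ^ e]) (h2 : c ≡ c' [MOD ∏ q ∈ S.erase p, q ^ e]) :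
    c ≡ c' [MOD ∏ q ∈ S, q ^ e] := by
  have hc : Nat.Coprime (p ^ e) (∏ q ∈ S.erase p, q ^ e) := by
    apply Nat.Coprime.prod_right
    intro q hq
    rw [mem_erase] at hq
    exact Nat.Coprime.pow e e ((Nat.coprime_primes (hS p hp) (hS q hq.2)).2 (Ne.symm hq.1))
  rw [← Finset.mul_prod_erase S (fun q => q ^ e) hp]
  exact (Nat.modEq_and_modEq_iff_modEq_mul hc).1 ⟨h1, h2⟩

theorem cc_mul (x y : ℕ) : cc S e p (x * y) ≡ cc S e p x * cc S e p y [MOD ∏ q ∈ S, q ^ e] := by
  apply modEq_of hS hp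
  · exact (cc_spec hS hp (x * y)).1.trans ((cc_spec hS hp x).1.mul (cc_spec hS hp y).1).symm
  · have := (cc_spec hS hp (e := e) x).2.mul (cc_spec hS hp (e := e) y).2
    rw [mul_one] at this
    exact (cc_spec hS hp (x * y)).2.trans this.symm

theorem cc_congr (x y : ℕ) (h : x ≡ y [MOD p ^ e]) : cc S e p x ≡ cc S e p y [MOD ∏ q ∈ S, q ^ e] := by
  apply modEq_of hS hp
  · exact (cc_spec hS hp x).1.trans (h.trans (cc_spec hS hp y).1.symm)
  · exact (cc_spec hS hp x).2.trans (cc_spec hS hp y).2.symm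

theorem cc_one : cc S e p 1 ≡ 1 [MOD ∏ q ∈ S, q ^ e] := by
  apply modEq_of hS hp
  · exact (cc_spec hS hp 1).1
  · exact (cc_spec hS hp 1).2

theorem cc_coprime (he : 0 < e) (x : ℕ) (hx : ¬ p ∣ x) : Nat.Coprime (cc S e p x) (∏ q ∈ S, q ^ e) := by
  apply Nat.Coprime.prod_right
  intro q hq
  apply Nat.Coprime.pow_right
  by_cases hqp : q = p
  · subst hqp
    have h1 := (cc_spec hS hq (e := e) x).1
    have h2 : cc S e q x ≡ x [MOD q] := h1.of_dvd (dvd_pow_self q he.ne')
    rw [Nat.Coprime, h2.gcd_eq]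
    exact ((Nat.Prime.coprime_iff_not_dvd (hS q hq)).2 hx).symm
  · have h1 := (cc_spec hS hp (e := e) x).2
    have h3 : q ∣ ∏ q ∈ S.erase p, q ^ e :=
      (dvd_pow_self q he.ne').trans (dvd_prod_of_mem (fun q => q ^ e) (mem_erase.2 ⟨hqp, hq⟩))
    have h2 : cc S e p x ≡ 1 [MOD q] := h1.of_dvd h3
    rw [Nat.Coprime, h2.gcd_eq]
    exact Nat.gcd_one_left q
end

theorem prod_cc {S : Finset ℕ} (hS : ∀ p ∈ S, p.Prime) (e x : ℕ) :
    ∏ p ∈ S, cc S e p x ≡ x [MOD ∏ q ∈ S, q ^ e] := by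
  rw [Nat.modEq_iff_dvd]
  have h1 : ((∏ q ∈ S, q ^ e : ℕ) : ℤ) = ∏ q ∈ S, ((q : ℤ) ^ e) := by push_cast; rfl
  rw [h1]
  apply Finset.prod_dvd_of_coprime
  · intro p hp q hq hpq
    simp only [Function.onFun]
    apply IsCoprime.pow
    rw [Nat.isCoprime_iff_coprime]
    exact (Nat.coprime_primes (hS p hp) (hS q hq)).2 hpq
  · intro p hp
    have h2 : ∏ r ∈ S, cc S e r x ≡ x [MOD p ^ e] := by
      rw [← Finset.mul_prod_erase S _ hp]
      have h3 : ∏ r ∈ S.erase p, cc S e r x ≡ 1 [MOD p ^ e] := by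
        have h4 : ∏ r ∈ S.erase p, cc S e r x ≡ ∏ r ∈ S.erase p, 1 [MOD p ^ e] := by
          apply Nat.ModEq.prod
          intro r hr
          rw [mem_erase] at hr
          exact (cc_spec hS hr.2 (e := e) x).2.of_dvd
            (dvd_prod_of_mem (fun q => q ^ e) (mem_erase.2 ⟨Ne.symm hr.1, hp⟩))
        simpa using h4
      have h5 := (cc_spec hS hp (e := e) x).1.mul h3
      simpa using h5
    have h6 := Nat.modEq_iff_dvd.1 h2
    simpa using h6

/-- the sign of `± 1` -/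
noncomputable def sg (z : ℂ) : ℤ := if z = 1 then 1 else -1

theorem sg_val (z : ℂ) : sg z = 1 ∨ sg z = -1 := by
  unfold sg; split_ifs <;> simp

theorem sg_cast {z : ℂ} (h : z = 1 ∨ z = -1) : ((sg z : ℤ) : ℂ) = z := by
  unfold sg
  rcases h with h | h
  · simp [h]
  · have : (-1 : ℂ) ≠ 1 := by norm_num
    simp [h, this]

theorem sg_mul {z w : ℂ} (hz : z = 1 ∨ z = -1) (hw : w = 1 ∨ w = -1) : sg (z * w) = sg z * sg w := by
  have h : (-1 : ℂ) ≠ 1 := by norm_num
  rcases hz with rfl | rfl <;> rcases hw with rfl | rfl <;> simp [sg, h]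

theorem chi_val {Q : ℕ} (χ : DirichletCharacter ℂ Q) (hχ : χ ^ 2 = 1) (c : ℕ) (hc : Nat.Coprime c Q) :
    χ (c : ZMod Q) = 1 ∨ χ (c : ZMod Q) = -1 := by
  have hu : IsUnit (c : ZMod Q) := (ZMod.isUnit_iff_coprime c Q).2 hc
  have h1 : (χ ^ 2) (c : ZMod Q) = 1 := by
    rw [hχ]
    exact MulChar.one_apply hu
  rw [MulChar.pow_apply' χ two_ne_zero] at h1
  rw [pow_two] at h1
  exact mul_self_eq_one_iff.1 h1


section loc
variable {S : Finset ℕ} (hS : ∀ p ∈ S, p.Prime) {e : ℕ} (he : 0 < e) {Q : ℕ}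
  (hQ : Q ∣ ∏ q ∈ S, q ^ e) (χ : DirichletCharacter ℂ Q) (hχ : χ ^ 2 = 1)

/-- the `p`-component of `χ` -/
noncomputable def comp (S : Finset ℕ) (e : ℕ) {Q : ℕ} (χ : DirichletCharacter ℂ Q) (p x : ℕ) : ℂ :=
  χ ((cc S e p x : ℕ) : ZMod Q)

/-- the local character -/
noncomputable def sig (S : Finset ℕ) (e : ℕ) {Q : ℕ} (χ : DirichletCharacter ℂ Q) (s : ℕ → ℤ) (p x : ℕ) : ℤ :=
  s p ^ (x.factorization p) * sg (comp S e χ p (x / p ^ x.factorization p))

include hQ in
theorem chi_congr (x y : ℕ) (h : x ≡ y [MOD ∏ q ∈ S, q ^ e]) : χ (x : ZMod Q) = χ (y : ZMod Q) := by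
  have h1 : x ≡ y [MOD Q] := h.of_dvd hQ
  rw [(ZMod.natCast_eq_natCast_iff x y Q).2 h1]

include hS hQ in
theorem comp_mul (p : ℕ) (hp : p ∈ S) (x y : ℕ) : comp S e χ p (x * y) = comp S e χ p x * comp S e χ p y := by
  unfold comp
  rw [chi_congr hQ χ _ _ (cc_mul hS hp x y)]
  push_cast
  rw [map_mul]

include hS he hQ hχ in
theorem comp_val (p : ℕ) (hp : p ∈ S) (x : ℕ) (hx : ¬ p ∣ x) :
    comp S e χ p x = 1 ∨ comp S e χ p x = -1 :=
  chi_val χ hχ _ ((cc_coprime hS hp he x hx).coprime_dvd_right hQ)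

include hS hQ in
theorem comp_one (p : ℕ) (hp : p ∈ S) : comp S e χ p 1 = 1 := by
  unfold comp
  rw [chi_congr hQ χ _ _ (cc_one hS hp)]
  simp

include hS hQ in
theorem comp_prod (x : ℕ) : ∏ p ∈ S, comp S e χ p x = χ (x : ZMod Q) := by
  unfold comp
  rw [← chi_congr hQ χ _ _ (prod_cc hS e x)]
  push_cast
  rw [map_prod]

theorem sig_val (s : ℕ → ℤ) (hs : ∀ p, s p = 1 ∨ s p = -1) (p x : ℕ) :
    sig S e χ s p x = 1 ∨ sig S e χ s p x = -1 := by
  have h1 : s p ^ (x.factorization p) = 1 ∨ s p ^ (x.factorization p) = -1 := by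
    rcases hs p with h | h
    · left; rw [h, one_pow]
    · rw [h]; exact neg_one_pow_eq_or ℤ _
  unfold sig
  rcases h1 with h1 | h1 <;> rcases sg_val (comp S e χ p (x / p ^ x.factorization p)) with h2 | h2 <;>
    rw [h1, h2] <;> simp

include hS he hQ hχ in
theorem sig_mul (s : ℕ → ℤ) (p : ℕ) (hp : p ∈ S) (x y : ℕ) (hx : 0 < x) (hy : 0 < y) :
    sig S e χ s p (x * y) = sig S e χ s p x * sig S e χ s p y := by
  have hpp := hS p hp
  unfold sig
  rw [Nat.ordCompl_mul x y p, comp_mul hS hQ χ p hp, Nat.factorization_mul hx.ne' hy.ne',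
    Finsupp.add_apply, pow_add, sg_mul]
  · ring
  · exact comp_val hS he hQ χ hχ p hp _ (Nat.not_dvd_ordCompl hpp hx.ne')
  · exact comp_val hS he hQ χ hχ p hp _ (Nat.not_dvd_ordCompl hpp hy.ne')

include hS he hQ hχ in
theorem sig_loc (s : ℕ → ℤ) (hs : ∀ p, s p = 1 ∨ s p = -1) (p : ℕ) (hp : p ∈ S) :
    Loc p (sig S e χ s p) := by
  refine ⟨fun x _ => sig_val χ s hs p x, fun x y hx hy => sig_mul hS he hQ χ hχ s p hp x y hx hy, e, ?_⟩
  intro x y hx hxy
  have hy : ¬ p ∣ y := by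
    intro h
    exact hx ((hxy.of_dvd (dvd_pow_self p he.ne')).symm.dvd_iff (dvd_refl p) |>.1 h)
  unfold sig
  rw [Nat.factorization_eq_zero_of_not_dvd hx, Nat.factorization_eq_zero_of_not_dvd hy]
  simp only [pow_zero, Nat.div_one, one_mul]
  unfold comp
  rw [chi_congr hQ χ _ _ (cc_congr hS hp x y hxy)]

include hS hQ in
theorem sig_one (s : ℕ → ℤ) (p : ℕ) (hp : p ∈ S) : sig S e χ s p 1 = 1 := by
  unfold sig
  simp [comp_one hS hQ χ p hp, sg]

include hS hQ in
theorem sig_self (s : ℕ → ℤ) (p : ℕ) (hp : p ∈ S) : sig S e χ s p p = s p := by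
  have hpp := hS p hp
  unfold sig
  rw [hpp.factorization_self]
  simp only [pow_one]
  rw [Nat.div_self hpp.pos, comp_one hS hQ χ p hp]
  simp [sg]

theorem sig_ne (s : ℕ → ℤ) (p l : ℕ) (hl : l.Prime) (hp : p.Prime) (hne : p ≠ l) :
    sig S e χ s p l = sg (comp S e χ p l) := by
  unfold sig
  rw [Nat.factorization_eq_zero_of_not_dvd (by
    rw [Nat.prime_dvd_prime_iff_eq hp hl]
    exact hne)]
  simp

/-- the sign at `l ∈ S` -/
noncomputable def ss (S : Finset ℕ) (e : ℕ) {Q : ℕ} (χ : DirichletCharacter ℂ Q) (f : ℕ → ℤ) (l : ℕ) : ℤ :=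
  if l ∈ S then f l * ∏ p ∈ S.erase l, sg (comp S e χ p l) else 1

theorem sq_one_of {z : ℤ} (h : z = 1 ∨ z = -1) : z * z = 1 := by
  rcases h with h | h <;> rw [h] <;> norm_num

theorem prod_pm {ι : Type*} (s : Finset ι) (g : ι → ℤ) (h : ∀ i ∈ s, g i = 1 ∨ g i = -1) :
    ∏ i ∈ s, g i = 1 ∨ ∏ i ∈ s, g i = -1 := by
  classical
  induction s using Finset.induction_on with
  | empty => simp
  | insert i s hi ih =>
    rw [prod_insert hi]
    rcases h i (mem_insert_self _ _) with h1 | h1 <;>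
      rcases ih (fun j hj => h j (mem_insert_of_mem hj)) with h2 | h2 <;> rw [h1, h2] <;> simp

include hS in
theorem ss_val (f : ℕ → ℤ) (hf : CM f) (l : ℕ) : ss S e χ f l = 1 ∨ ss S e χ f l = -1 := by
  unfold ss
  split_ifs with h
  · have h1 := hf.val l (hS l h).pos
    have h2 := prod_pm (S.erase l) (fun p => sg (comp S e χ p l)) (fun p _ => sg_val _)
    rcases h1 with h1 | h1 <;> rcases h2 with h2 | h2 <;> rw [h1, h2] <;> simp
  · exact Or.inl rfl

/-- the product of the local characters -/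
noncomputable def GG (S : Finset ℕ) (e : ℕ) {Q : ℕ} (χ : DirichletCharacter ℂ Q) (f : ℕ → ℤ) (m : ℕ) : ℤ :=
  ∏ p ∈ S, sig S e χ (ss S e χ f) p m

include hS he hQ hχ in
theorem GG_mul (f : ℕ → ℤ) (x y : ℕ) (hx : 0 < x) (hy : 0 < y) :
    GG S e χ f (x * y) = GG S e χ f x * GG S e χ f y := by
  unfold GG
  rw [← prod_mul_distrib]
  exact prod_congr rfl fun p hp => sig_mul hS he hQ χ hχ _ p hp x y hx hy

include hS hQ in
theorem GG_one (f : ℕ → ℤ) : GG S e χ f 1 = 1 :=
  prod_eq_one fun p hp => sig_one hS hQ χ _ p hp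

include hS hQ in
theorem GG_mem (f : ℕ → ℤ) (l : ℕ) (hl : l ∈ S) : GG S e χ f l = f l := by
  unfold GG
  rw [← Finset.mul_prod_erase S _ hl, sig_self hS hQ χ _ l hl]
  have h1 : ∏ p ∈ S.erase l, sig S e χ (ss S e χ f) p l = ∏ p ∈ S.erase l, sg (comp S e χ p l) := by
    apply prod_congr rfl
    intro p hp
    rw [mem_erase] at hp
    exact sig_ne χ _ p l (hS l hl) (hS p hp.2) hp.1
  rw [h1, ss, if_pos hl, mul_assoc,
    sq_one_of (prod_pm (S.erase l) (fun p => sg (comp S e χ p l)) (fun p _ => sg_val _)), mul_one]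

include hS he hQ hχ in
theorem GG_not_mem (f : ℕ → ℤ) (l : ℕ) (hl : l.Prime) (hlS : l ∉ S) :
    ((GG S e χ f l : ℤ) : ℂ) = χ (l : ZMod Q) := by
  rw [← comp_prod hS hQ χ l]
  unfold GG
  push_cast
  apply prod_congr rfl
  intro p hp
  have hne : p ≠ l := fun h => hlS (h ▸ hp)
  rw [sig_ne χ _ p l hl (hS p hp) hne, sg_cast]
  apply comp_val hS he hQ χ hχ p hp
  rw [Nat.prime_dvd_prime_iff_eq (hS p hp) hl]
  exact hne

include hS he hQ hχ in
theorem GG_eq (f : ℕ → ℤ) (hf : CM f) (m : ℕ) (hm : 0 < m)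
    (h : ∀ p : ℕ, p.Prime → p ∣ m → p ∈ S ∨ (f p : ℂ) = χ (p : ZMod Q)) : f m = GG S e χ f m := by
  induction m using Nat.strong_induction_on with
  | _ m ih =>
    rcases Nat.lt_or_ge 1 m with h1 | h1
    · have hpr := Nat.minFac_prime h1.ne'
      obtain ⟨k, hk⟩ := Nat.minFac_dvd m
      set q := m.minFac with hq
      have hk0 : 0 < k := by
        rcases Nat.eq_zero_or_pos k with h0 | h0
        · rw [h0, mul_zero] at hk; omega
        · exact h0
      have hkm : k < m := by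
        rw [hk]
        exact lt_mul_of_one_lt_left hk0 hpr.one_lt
      have e1 := ih k hkm hk0 (fun p hp hpk => h p hp (hpk.trans ⟨q, by rw [hk]; ring⟩))
      have e2 : f q = GG S e χ f q := by
        rcases h q hpr (Nat.minFac_dvd m) with h2 | h2
        · exact (GG_mem hS hQ χ f q h2).symm
        · by_cases hqS : q ∈ S
          · exact (GG_mem hS hQ χ f q hqS).symm
          · have := GG_not_mem hS he hQ χ hχ f q hpr hqS
            rw [← h2] at this
            exact_mod_cast this.symm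
      rw [hk, hf.mul, GG_mul hS he hQ χ hχ f q k hpr.pos hk0, e1, e2]
    · have : m = 1 := by omega
      rw [this, hf.one, GG_one hS hQ χ f]

end loc

open scoped Classical in
theorem pret (hL : S_LOC) : S_PRET := by
  intro f hf Q hQ χ hχ hPr a b ha hab hE
  set w : ℕ → ℝ := fun p => if p.Prime ∧ (f p : ℂ) ≠ χ (p : ZMod Q) then 1 / (p : ℝ) else 0 with hw
  have hw0 : ∀ p, 0 ≤ w p := fun p => by simp only [hw]; split_ifs <;> positivity
  have hws : Summable w := hPr
  -- the level `y`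
  obtain ⟨y, hyQ, hy⟩ : ∃ y : ℕ, Q < y ∧ ∑' k, w (k + y) < 1 / 100 := by
    have h1 := tendsto_sum_nat_add w
    have h2 := (h1.eventually (gt_mem_nhds (by norm_num : (0 : ℝ) < 1 / 100))).and (eventually_gt_atTop Q)
    obtain ⟨y, h3, h4⟩ := h2.exists
    exact ⟨y, h4, h3⟩
  obtain ⟨B, hB⟩ : ∃ B : Set ℕ, ∀ p, p ∈ B ↔ (p.Prime ∧ (f p : ℂ) ≠ χ (p : ZMod Q) ∧ y ≤ p) :=
    ⟨{p | p.Prime ∧ (f p : ℂ) ≠ χ (p : ZMod Q) ∧ y ≤ p}, fun p => Iff.rfl⟩
  have hfun : (fun p : ℕ => if p ∈ B then 1 / (p : ℝ) else 0) = fun p => if y ≤ p then w p else 0 := by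
    funext p
    simp only [hB, hw]
    split_ifs <;> tauto
  have hBs : Summable (fun p : ℕ => if p ∈ B then 1 / (p : ℝ) else 0) := by
    rw [hfun]
    refine Summable.of_nonneg_of_le (fun p => ?_) (fun p => ?_) hws
    · split_ifs
      · exact hw0 p
      · exact le_rfl
    · split_ifs
      · exact le_rfl
      · exact hw0 p
  have hBt : ∑' p : ℕ, (if p ∈ B then 1 / (p : ℝ) else 0) < 1 / 100 := by
    have h1 := hBs.sum_add_tsum_nat_add y
    have h2 : ∑ p ∈ range y, (if p ∈ B then 1 / (p : ℝ) else 0) = 0 := by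
      apply sum_eq_zero
      intro p hp
      rw [mem_range] at hp
      rw [if_neg]
      intro h
      rw [hB] at h
      omega
    rw [h2, zero_add] at h1
    rw [← h1]
    refine lt_of_eq_of_lt ?_ hy
    apply tsum_congr
    intro k
    simp only [hB, hw, le_add_iff_nonneg_left, Nat.zero_le, and_true]
  -- the small primes
  set S : Finset ℕ := (range y).filter Nat.Prime with hSdef
  have hS : ∀ p ∈ S, p.Prime := fun p hp => (mem_filter.1 hp).2
  have he : 0 < Q := hQ
  have hQd : Q ∣ ∏ q ∈ S, q ^ Q := by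
    have h1 : Q = ∏ q ∈ Q.primeFactors, q ^ Q.factorization q := (Nat.prod_factorization_pow_eq_self hQ.ne').symm
    have h2 : ∏ q ∈ Q.primeFactors, q ^ Q.factorization q ∣ ∏ q ∈ Q.primeFactors, q ^ Q := by
      apply prod_dvd_prod_of_dvd
      intro q hq
      exact pow_dvd_pow q (Nat.factorization_lt q hQ.ne').le
    have h3 : ∏ q ∈ Q.primeFactors, q ^ Q ∣ ∏ q ∈ S, q ^ Q := by
      apply prod_dvd_prod_of_subset
      intro q hq
      rw [hSdef, mem_filter, mem_range]
      exact ⟨(Nat.le_of_mem_primeFactors hq).trans_lt hyQ, Nat.prime_of_mem_primeFactors hq⟩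
    have h4 := h2.trans h3
    rwa [← h1] at h4
  -- local solutions
  have hloc : ∀ p : ℕ, ∃ r L : ℕ, p ∈ S → ∀ n : ℕ, 0 < n → n ≡ r [MOD p ^ L] →
      (sig S Q χ (ss S Q χ f) p n = 1 ∧ sig S Q χ (ss S Q χ f) p (n + a) = 1 ∧
        sig S Q χ (ss S Q χ f) p (n + b) = 1) := by
    intro p
    by_cases hp : p ∈ S
    · obtain ⟨r, L, h⟩ := hL p (hS p hp) a b ha hab hE (sig S Q χ (ss S Q χ f) p)
        (sig_loc hS he hQd χ hχ _ (ss_val hS χ f hf) p hp)
      exact ⟨r, L, fun _ n hn hnr => (h n hn hnr).1⟩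
    · exact ⟨0, 0, fun h => absurd h hp⟩
  choose r L hrL using hloc
  have hcop : Set.Pairwise (S : Set ℕ) (Function.onFun Nat.Coprime fun p => p ^ L p) := by
    intro p hp q hq hpq
    exact Nat.Coprime.pow _ _ ((Nat.coprime_primes (hS p hp) (hS q hq)).2 hpq)
  obtain ⟨R, hR⟩ := Nat.chineseRemainderOfFinset r (fun p => p ^ L p) S
    (fun p hp => pow_ne_zero _ (hS p hp).ne_zero) hcop
  set M : ℕ := ∏ p ∈ S, p ^ L p with hM
  have hM0 : 0 < M := prod_pos fun p hp => pow_pos (hS p hp).pos _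
  obtain ⟨n, hn0, hnR, hnB⟩ := sieve B (fun p hp => ((hB p).1 hp).1) hBs hBt M R a b hM0 (by
    intro p hp
    apply Nat.Coprime.prod_right
    intro q hq
    apply Nat.Coprime.pow_right
    rw [hB] at hp
    rw [Nat.coprime_primes hp.1 (hS q hq)]
    intro h
    rw [hSdef, mem_filter, mem_range] at hq
    have := hp.2.2
    omega)
  have hval : ∀ p ∈ S, (sig S Q χ (ss S Q χ f) p n = 1 ∧ sig S Q χ (ss S Q χ f) p (n + a) = 1 ∧
        sig S Q χ (ss S Q χ f) p (n + b) = 1) := by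
    intro p hp
    apply hrL p hp n hn0
    exact (hnR.of_dvd (dvd_prod_of_mem (fun p => p ^ L p) hp)).trans (hR p hp)
  have hgood : ∀ m : ℕ, (∀ p ∈ B, ¬ p ∣ m) → ∀ p : ℕ, p.Prime → p ∣ m → p ∈ S ∨ (f p : ℂ) = χ (p : ZMod Q) := by
    intro m hm p hp hpm
    by_contra hcon
    push Not at hcon
    apply hm p _ hpm
    rw [hB]
    refine ⟨hp, hcon.2, ?_⟩
    by_contra hlt
    apply hcon.1
    rw [hSdef, mem_filter, mem_range]
    exact ⟨by omega, hp⟩
  refine ⟨n, hn0, ?_, ?_, ?_⟩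
  · rw [GG_eq hS he hQd χ hχ f hf n hn0 (hgood n fun p hp => (hnB p hp).1)]
    exact prod_eq_one fun p hp => (hval p hp).1
  · rw [GG_eq hS he hQd χ hχ f hf (n + a) (by omega) (hgood _ fun p hp => (hnB p hp).2.1)]
    exact prod_eq_one fun p hp => (hval p hp).2.1
  · rw [GG_eq hS he hQd χ hχ f hf (n + b) (by omega) (hgood _ fun p hp => (hnB p hp).2.2)]
    exact prod_eq_one fun p hp => (hval p hp).2.2

end Pool.Agent.Y917.LT
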